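import Pool.Agent.helper12.TZ.Spec

set_option autoImplicit false

/-!
# TZ, row PAR
-/

namespace Pool.Agent.TZ

open Pool.Agent.helper58.DC Pool.Agent.DI Pool.Agent.GR Pool.Agent.OB

theorem PAR : PAR_stmt := by
  classical
  intro T _ Z c n w I h1 h2 h3 h4
  have key : ∀ (N : ℕ) (Z : Set T), Z.ncard = N → (∀ x ∈ Z, x ∈ c x) →
      (∀ x ∈ Z, ∀ x' ∈ c x, x' ∈ Z ∧ c x' = c x ∧ w x' = w x) →
      (∀ x ∈ Z, n ∣ Nat.card (c x)) → (∀ x ∈ Z, w x ∈ I) →
      ∃ v ∈ I, ∑ᶠ x ∈ Z, w x = (n : ℂ) * v := by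
    intro N
    induction N using Nat.strong_induction_on with
    | _ N ih =>
      intro Z hN h1 h2 h3 h4
      rcases Z.eq_empty_or_nonempty with h0 | ⟨x, hx⟩
      · refine ⟨0, I.zero_mem, ?_⟩
        rw [h0]
        simp
      · have hsub : c x ⊆ Z := fun y hy => (h2 x hx y hy).1
        have hlt : (Z \ c x).ncard < N := by
          rw [← hN]
          apply Set.ncard_lt_ncard _ (Set.toFinite _)
          refine ⟨Set.sdiff_subset, fun h => ?_⟩
          exact (h hx).2 (h1 x hx)
        obtain ⟨v, hv, hsum⟩ := ih _ hlt (Z \ c x) rfl (fun y hy => h1 y hy.1)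
          (by
            intro y hy y' hy'
            obtain ⟨h5, h6, h7⟩ := h2 y hy.1 y' hy'
            refine ⟨⟨h5, fun h8 => ?_⟩, h6, h7⟩
            have h9 := (h2 x hx y' h8).2.1
            apply hy.2
            rw [← h9, h6]
            exact h1 y hy.1)
          (fun y hy => h3 y hy.1) (fun y hy => h4 y hy.1)
        obtain ⟨k, hk⟩ := h3 x hx
        refine ⟨(k : ℂ) * w x + v, I.add_mem ?_ hv, ?_⟩
        · have := I.nsmul_mem (h4 x hx) k
          rwa [nsmul_eq_mul] at this
        · have h5 : Z = c x ∪ (Z \ c x) := by rw [Set.union_sdiff_cancel hsub]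
          rw [h5, finsum_mem_union Set.disjoint_sdiff_right (Set.toFinite _) (Set.toFinite _), hsum]
          have h6 : ∑ᶠ y ∈ c x, w y = ∑ᶠ y ∈ c x, w x :=
            finsum_mem_congr rfl (fun y hy => (h2 x hx y hy).2.2)
          rw [h6, finsum_mem_eq_finite_toFinset_sum _ (Set.toFinite (c x)), Finset.sum_const, nsmul_eq_mul]
          have h7 : ((Set.toFinite (c x)).toFinset.card : ℂ) = (n : ℂ) * k := by
            rw [← Set.ncard_eq_toFinset_card, ← Nat.card_coe_set_eq, hk]
            push_cast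
            ring
          rw [h7]
          ring
  exact key _ Z rfl h1 h2 h3 h4

end Pool.Agent.TZ
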